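import Pool.Agent.Helper13_Men.Strong

/-! # Squad MEN, module CRNC, strong form: covering property, countable index set on the Miller
side, with requirements which are only dense below the given pair -/

open MeasureTheory Set

namespace Pool.Agent.Men.RR.H9

theorem crnc2 (hAbs : Abs2Stmt) (hRel : RelStmt) (hMcs : McsStmt) : Crnc2Stmt := by
  intro I _ _
  obtain ⟨Op, hOp⟩ := hAbs I
  refine ⟨Op, ?_⟩
  intro Λ _ _ _ N' N hN' hNc hNop L hL p hp hpL s hs E hEm hEd
  classical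
  -- the countable order on the Miller side
  let Q : Type := {q : Cond ℕ Λ // q ∈ N' ∧ q.Below L ∧ q ≤ p}
  let _ : Preorder Q := Preorder.lift (fun q : Q => q.1)
  have : Countable ↥N' := hN'.count.to_subtype
  have : Countable ↥N := hNc.to_subtype
  have hQc : Countable Q := by
    have : Function.Injective (fun q : Q => (⟨q.1, q.2.1⟩ : ↥N')) := by
      intro a b h
      exact Subtype.ext (congrArg (fun z : ↥N' => z.1) h)
    exact this.countable
  obtain ⟨s1, hs1, habs⟩ := hOp Q N hNc hNop s hs (fun k t q => E k q.1 t)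
    (fun k t ht t' ht' q q' h htt hqq => hEm k q.1 q.2.1 q'.1 q'.2.1 t ht t' ht' h hqq htt)
    (fun k t ht hts q => by
      obtain ⟨p', hp', hle, hb, s', hs', hsle, hE⟩ := hEd k q.1 q.2.1 q.2.2.1 q.2.2.2 t ht hts
      exact ⟨s', hs', hsle, ⟨p', hp', hb, le_trans hle q.2.2.2⟩, hle, hE⟩)
  -- dense sets
  let DD : ℕ → Set (Cond ℕ Λ) := fun k =>
    {g | g.restr L ≤ p ∧ ∃ F : List (Cond (Fin 2) I), (∀ t ∈ F, t ∈ N ∧ E k (g.restr L) t) ∧
      ∀ x ∈ s1.body, ∃ t ∈ F, x ∈ t.body}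
  obtain ⟨hG0, hRS⟩ := hRel Λ N' hN' (Set.range DD) (Set.countable_range DD)
  have h0 : IsLowerSet (∅ : Set Λ) := fun _ _ _ h => h.elim
  obtain ⟨p', G, hG, _, hpG⟩ := hRS ∅ L h0 hL (Set.empty_subset _) _ _ hG0
    (fun _ => (⟨p, hp⟩ : ↥N')) (by
      intro c
      exact MeasurableSet.const _) (fun _ _ _ => rfl)
    (fun y _ => ⟨hN'.restr p hp ∅ h0, Cond.restr_below _ _⟩)
  have hp'p : p' ≤ p := by
    intro y hy
    have := hG.pt y hy _ (hpG y hy)
    rw [Cond.restr_body] at this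
    rw [hpL.body_eq]
    exact this
  -- the index set
  let C : Type := Q × List ↥N
  have hCn : Nonempty C := ⟨(⟨p, hp, hpL, le_rfl⟩, [])⟩
  obtain ⟨f, hf⟩ := exists_surjective_nat C
  let V : ℕ → Pt ℕ Λ → C → Prop := fun k y c =>
    c.1.1 ∈ G y ∧ (∀ t ∈ c.2, E k c.1.1 t.1) ∧ ∀ x ∈ s1.body, ∃ t ∈ c.2, x ∈ t.1.body
  have hVm : ∀ k c, MeasurableSet {y | V k y c} := by
    intro k c
    by_cases h : (∀ t ∈ c.2, E k c.1.1 t.1) ∧ ∀ x ∈ s1.body, ∃ t ∈ c.2, x ∈ t.1.body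
    · have : {y | V k y c} = {y | c.1.1 ∈ G y} := by
        ext y
        exact ⟨fun h' => h'.1, fun h' => ⟨h', h⟩⟩
      rw [this]
      exact hG.meas _
    · have : {y | V k y c} = ∅ := by
        ext y
        simp only [Set.mem_ofPred_eq, Set.mem_empty_iff_false, iff_false]
        exact fun h' => h h'.2
      rw [this]
      exact MeasurableSet.empty
  have hex : ∀ k, ∀ y ∈ p'.body, ∃ c, V k y c := by
    intro k y hy
    obtain ⟨g, hg, _, ⟨hgp, F, hF1, hF2⟩, hgG⟩ := hG.gen p hp y hy (hpG y hy) (DD k) ⟨k, rfl⟩ (by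
      intro h hh hhL hhp
      obtain ⟨q', hq', F, hF1, hF2⟩ := habs k ⟨h, hh, hhL, le_trans hhp hpL.restr_le⟩
      refine ⟨q'.1, q'.2.1, Cond.le_glue hq' (le_trans hq' (le_trans hhp hpL.restr_le)),
        le_trans q'.2.2.1.restr_le q'.2.2.2, F, fun t ht => ⟨(hF1 t ht).1, ?_⟩, hF2⟩
      exact hEm k q'.1 q'.2.1 _ (hN'.restr _ q'.2.1 L hL) t (hF1 t ht).1 t (hF1 t ht).1
        (hF1 t ht).2.2 q'.2.2.1.restr_le le_rfl)
    refine ⟨(⟨g.restr L, hN'.restr g hg L hL, Cond.restr_below _ _, hgp⟩,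
      F.attach.map (fun t => ⟨t.1, (hF1 t.1 t.2).1⟩)), hgG, ?_, ?_⟩
    · intro t ht
      rw [List.mem_map] at ht
      obtain ⟨t', _, rfl⟩ := ht
      exact (hF1 t'.1 t'.2).2
    · intro x hx
      obtain ⟨t, ht, hxt⟩ := hF2 x hx
      refine ⟨⟨t, (hF1 t ht).1⟩, ?_, hxt⟩
      rw [List.mem_map]
      exact ⟨⟨t, ht⟩, List.mem_attach _ _, rfl⟩
  choose cf hcf using fun k => hMcs (Pt ℕ Λ) C (V k) (hVm k)
  refine ⟨p', hp'p, hG.below, s1, hs1, fun n => (f n).1.1, fun n => (f n).2.map (fun t => t.1),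
    fun k y => Function.surjInv hf (cf k y), fun n => ⟨(f n).1.2.1, (f n).1.2.2.1⟩, ?_, ?_, ?_, ?_⟩
  · intro n t ht
    rw [List.mem_map] at ht
    obtain ⟨t', _, rfl⟩ := ht
    exact t'.2
  · intro k
    apply measurable_to_countable'
    intro n
    have : (fun y => Function.surjInv hf (cf k y)) ⁻¹' {n}
        = ⋃ c : {c : C // Function.surjInv hf c = n}, {y | cf k y = c.1} := by
      ext y
      simp only [Set.mem_preimage, Set.mem_singleton_iff, Set.mem_iUnion, Set.mem_ofPred_eq]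
      constructor
      · intro h
        exact ⟨⟨cf k y, h⟩, rfl⟩
      · rintro ⟨c, hc⟩
        rw [hc]
        exact c.2
    rw [this]
    exact MeasurableSet.iUnion (fun c => (hcf k).1 c.1)
  · intro k y y' h
    have h1 : G y = G y' := hG.dep y y' h
    have h2 : cf k y = cf k y' := by
      apply (hcf k).2.2
      intro c
      show (c.1.1 ∈ G y ∧ _) ↔ (c.1.1 ∈ G y' ∧ _)
      rw [h1]
    show Function.surjInv hf (cf k y) = Function.surjInv hf (cf k y')
    rw [h2]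
  · intro k y hy
    have h1 := (hcf k).2.1 y (hex k y hy)
    have h2 : f (Function.surjInv hf (cf k y)) = cf k y := Function.surjInv_eq hf _
    simp only [h2]
    refine ⟨hG.pt y hy _ h1.1, ?_, ?_⟩
    · intro t ht
      rw [List.mem_map] at ht
      obtain ⟨t', ht', rfl⟩ := ht
      exact h1.2.1 t' ht'
    · intro x hx
      obtain ⟨t, ht, hxt⟩ := h1.2.2 x (by exact hx)
      exact ⟨t.1, List.mem_map.2 ⟨t, ht, rfl⟩, hxt⟩

end Pool.Agent.Men.RR.H9
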