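import Pool.Agent.Helper9_Men.REL2

/-! # Squad MEN, module MILL: limit case of the final construction -/

open MeasureTheory Set

namespace Pool.Agent.Men.RR.H9

theorem mill (hRel : RelStmt) (hLt : LtStmt) (hSeqp : SeqpStmt) : MillStmt := by
  intro Λ _ _ _ N j W 𝓑 P1 b1 hj hpre
  classical
  set U : Set Λ := ⋃ n, Iio (j n) with hU
  have hUl : IsLowerSet U := isLowerSet_iUnion (fun n => isLowerSet_Iio (j n))
  obtain ⟨c, b, ⟨P0, hP01, n0, σ0, hinv0⟩, _, hcm, hcb, hcinf, hd⟩ :=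
    hSeqp Λ N U j W 𝓑 P1 b1 hUl hpre
  have hN : Clo N := hpre.clo
  have hNc : Countable ↥N := hN.count.to_subtype
  let Q : Type := ↥N × ℕ × Node × ℕ
  have hQc : Countable Q := inferInstanceAs (Countable (↥N × ℕ × Node × ℕ))
  let 𝒟 : Set (Set (Cond ℕ Λ)) :=
    Set.range (fun q : Q => Est N U j W c b q.1.1 q.2.1 q.2.2.1 q.2.2.2 0)
  have h𝒟 : 𝒟.Countable := Set.countable_range _
  let good : ℕ → Set Q := fun i =>
    {q | i ≤ q.2.1 ∧ q.1.1 ≤ P1 ∧ Inv N U W q.1.1 (j q.2.1) q.2.2.1 (↑(c q.2.2.2) ∪ b q.2.2.2)}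
  let Rel : ℕ → Q → Q → Prop := fun i S S' =>
    (i < S.2.1 ∧ S' = S) ∨ (S.2.1 = i ∧ S.2.2.2 < S'.2.2.2 ∧ ∀ k ∈ c S'.2.2.2, S'.1.1.body ⊆ W k)
  have hJl : ∀ n, IsLowerSet (Iio (j n)) := fun n => isLowerSet_Iio _
  have hJm : Monotone (fun n => Iio (j n)) := fun a b h => Iio_subset_Iio (hj.monotone h)
  have hrel := hRel Λ N hN 𝒟 h𝒟
  have hrelS : ∀ n, RelS N 𝒟 (Iio (j n)) (Iio (j (n + 1))) := fun n =>
    hrel.2 _ _ (hJl n) (hJl (n + 1)) (hJm (Nat.le_succ n))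
  have hl0 : IsLowerSet (∅ : Set Λ) := fun _ _ _ h => h.elim
  obtain ⟨p0, G0, hG0, _, hr0⟩ := hrel.2 ∅ (Iio (j 0)) hl0 (hJl 0) (Set.empty_subset _) _ _ hrel.1
    (fun _ => (⟨P0, hinv0.mem⟩ : ↥N)) (Meas.const _) (fun _ _ _ => rfl)
    (fun y _ => ⟨hN.restr _ hinv0.mem _ hl0, Cond.restr_below _ _⟩)
  let q0 : Q := (⟨P0, hinv0.mem⟩, n0, σ0, 0)
  obtain ⟨p, St, hb, _, _, _, _, hSt⟩ := hLt Λ Q N 𝒟 hN (fun n => Iio (j n)) hJl hJm hrelS
    (fun q => q.1.1) good Rel (fun n S _ => S.1.2) (by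
      intro i p1 G1 hG1 y hy S hS hSG
      rcases lt_or_eq_of_le hS.1 with hlt | heq
      · exact ⟨S, ⟨hlt, hS.2⟩, Or.inl ⟨hlt, rfl⟩, le_rfl, hSG⟩
      · have hE : Est N U j W c b S.1.1 S.2.1 S.2.2.1 S.2.2.2 0 ∈ 𝒟 := ⟨S, rfl⟩
        have hD := hd S.1.1 hS.2.1 S.2.1 S.2.2.1 S.2.2.2 hS.2.2 0
        rw [heq] at hSG hG1 ⊢
        obtain ⟨g, hg, hgP, hgE, hgG⟩ := hG1.gen S.1.1 S.1.2 y hy hSG _ hE hD
        obtain ⟨a, _, _, m', hm', n', hn', σ', hinv', hW'⟩ := hgE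
        exact ⟨(⟨g, hg⟩, n', σ', m'), ⟨hn', le_trans hgP hS.2.1, hinv'⟩,
          Or.inr ⟨rfl, hm', hW'⟩, hgP, hgG⟩)
    p0 G0 hG0 (fun _ => q0) (Meas.const _) (fun _ _ _ => rfl) (by
      intro y hy
      exact ⟨⟨Nat.zero_le _, hP01, hinv0⟩, hr0 y hy⟩)
  have hbody : ∀ y ∈ p.body, ∀ n, y ∈ (St n y).1.1.body := by
    intro y hy n
    have h := (hSt y hy n).1.2.2.below
    rw [h.body_eq]
    exact (hSt y hy n).2.2.2
  refine ⟨p, ?_, hb, ⋃ m, (↑(c m) : Set ℕ), Set.iUnion_subset hcb, hcinf, ?_⟩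
  · intro y hy
    exact (hSt y hy 0).1.2.1 (hbody y hy 0)
  · intro k hk y hy
    obtain ⟨m0, hm0⟩ := Set.mem_iUnion.1 hk
    -- real moves
    have hmove : ∀ i, ∃ t ≥ i, (St i y).2.2.2 < (St (t + 1) y).2.2.2 ∧
        ∀ k ∈ c (St (t + 1) y).2.2.2, (St (t + 1) y).1.1.body ⊆ W k := by
      intro i
      have hstay : ∀ t, i ≤ t → t ≤ (St i y).2.1 → St t y = St i y := by
        intro t hit
        induction t, hit using Nat.le_induction with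
        | base => intro _; rfl
        | succ t hit ih =>
          intro ht
          have h1 := ih (by omega)
          have h2 := (hSt y hy t).2.1
          rcases h2 with ⟨_, h3⟩ | ⟨h3, _⟩
          · rw [h3, h1]
          · rw [h1] at h3
            omega
      have hin : i ≤ (St i y).2.1 := (hSt y hy i).1.1
      have h1 := hstay (St i y).2.1 hin le_rfl
      have h2 := (hSt y hy (St i y).2.1).2.1
      refine ⟨(St i y).2.1, hin, ?_⟩
      rcases h2 with ⟨h3, _⟩ | ⟨_, h4, h5⟩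
      · rw [h1] at h3
        exact absurd h3 (lt_irrefl _)
      · rw [h1] at h4
        exact ⟨h4, h5⟩
    have hM : ∀ M, ∃ t, M ≤ (St (t + 1) y).2.2.2 ∧
        ∀ k ∈ c (St (t + 1) y).2.2.2, (St (t + 1) y).1.1.body ⊆ W k := by
      intro M
      induction M with
      | zero =>
        obtain ⟨t, _, _, h⟩ := hmove 0
        exact ⟨t, Nat.zero_le _, h⟩
      | succ M ih =>
        obtain ⟨t, h1, _⟩ := ih
        obtain ⟨t', _, h3, h4⟩ := hmove (t + 1)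
        exact ⟨t', by omega, h4⟩
    obtain ⟨t, ht, hW⟩ := hM m0
    exact hW k (hcm ht hm0) (hbody y hy (t + 1))

end Pool.Agent.Men.RR.H9
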