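import Pool.Agent.Helper22_Men.Stmts

/-! # Squad MEN, module REL: extension theorem for generic conditions -/

open MeasureTheory Set

namespace Pool.Agent.Men.RR.H9

section
variable {Λ : Type} [LinearOrder Λ] {N : Set (Cond ℕ Λ)} {𝒟 : Set (Set (Cond ℕ Λ))}

theorem relS_refl (J : Set Λ) : RelS N 𝒟 J J := by
  intro p G hG r _ _ hrG
  exact ⟨p, G, hG, fun _ _ _ => rfl, hrG⟩

theorem relS_trans {J J' J'' : Set Λ} (hJJ : J ⊆ J') (h1 : RelS N 𝒟 J J')
    (h2 : RelS N 𝒟 J' J'') : RelS N 𝒟 J J'' := by
  intro p G hG r hrm hrd hrG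
  obtain ⟨p', G', hG', hT, hrG'⟩ := h1 p G hG r hrm hrd hrG
  obtain ⟨p'', G'', hG'', hT', hrG''⟩ := h2 p' G' hG' r hrm
    (fun y y' h => hrd y y' (fun i hi => h i (hJJ hi))) hrG'
  exact ⟨p'', G'', hG'', fun i hi y => (hT' i (hJJ hi) y).trans (hT i hi y), hrG''⟩

/-- The generic condition on the empty set. -/
theorem gen_empty (hN : Clo N) :
    Gen N 𝒟 ∅ (Cond.one ℕ Λ) (fun _ => {r | r ∈ N ∧ r.Below ∅}) := by
  refine ⟨fun _ _ _ => rfl, fun _ r hr => hr, fun _ r _ s hs hsb _ => ⟨hs, hsb⟩,
    fun _ _ _ => rfl, ?_, ?_, ?_⟩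
  · intro r
    exact MeasurableSet.const _
  · rintro y _ r ⟨_, hr⟩
    rw [hr.body_eq]
    intro i hi
    exact absurd hi (Set.notMem_empty i)
  · intro P hP y _ _ E _ hd
    have h0 : IsLowerSet (∅ : Set Λ) := fun _ _ _ h => h.elim
    obtain ⟨g, hg, hgle, hgE⟩ := hd (P.restr ∅) (hN.restr P hP ∅ h0) (Cond.restr_below _ _) le_rfl
    exact ⟨g, hg, le_trans hgle (Cond.glue_le_right (Cond.restr_below _ _) le_rfl), hgE,
      hN.restr g hg ∅ h0, Cond.restr_below _ _⟩

end

theorem rel (hLow : LowStmt) (hRel1 : RelSucStmt) (hRel2 : RelLimStmt) : RelStmt := by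
  intro Λ _ _ _ N hN 𝒟 h𝒟
  refine ⟨gen_empty hN, ?_⟩
  have key : ∀ J' : Set Λ, IsLowerSet J' → ∀ J : Set Λ, IsLowerSet J → J ⊆ J' →
      RelS N 𝒟 J J' := by
    refine hLow Λ (fun J' => ∀ J : Set Λ, IsLowerSet J → J ⊆ J' → RelS N 𝒟 J J') ?_ ?_ ?_
    · intro J _ hJ
      rw [Set.subset_empty_iff.1 hJ]
      exact relS_refl ∅
    · intro δ ih J hJ hJδ
      by_cases hδ : δ ∈ J
      · have : J = Iic δ := Set.Subset.antisymm hJδ (fun x hx => hJ hx hδ)
        rw [this]
        exact relS_refl _
      · have h1 : J ⊆ Iio δ := by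
          intro x hx
          refine lt_of_le_of_ne (hJδ hx) ?_
          rintro rfl
          exact hδ hx
        exact relS_trans h1 (ih J hJ h1) (hRel1 Λ N hN 𝒟 h𝒟 δ)
    · intro j hj ih J hJ hJU
      by_cases hx : (⋃ n, Iio (j n)) ⊆ J
      · rw [Set.Subset.antisymm hJU hx]
        exact relS_refl _
      · obtain ⟨x, hxU, hxJ⟩ := Set.not_subset.1 hx
        obtain ⟨n0, hn0⟩ := Set.mem_iUnion.1 hxU
        have hJx : J ⊆ Iio (j n0) := by
          intro z hz
          rcases lt_or_ge z x with h | h
          · exact lt_trans h hn0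
          · exact absurd (hJ h hz) hxJ
        -- the increasing sequence
        let K : ℕ → Set Λ := fun n => Nat.casesOn n J (fun m => Iio (j (n0 + m)))
        have hK0 : K 0 = J := rfl
        have hKs : ∀ m, K (m + 1) = Iio (j (n0 + m)) := fun _ => rfl
        have hKl : ∀ n, IsLowerSet (K n) := by
          intro n
          cases n with
          | zero => exact hJ
          | succ m => exact isLowerSet_Iio _
        have hKsub : ∀ n, K n ⊆ K (n + 1) := by
          intro n
          cases n with
          | zero => exact hJx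
          | succ m =>
            rw [hKs, hKs]
            exact Iio_subset_Iio (hj.monotone (by omega))
        have hKm : Monotone K := monotone_nat_of_le_succ hKsub
        have hKU : (⋃ n, K n) = ⋃ n, Iio (j n) := by
          apply Set.Subset.antisymm
          · apply Set.iUnion_subset
            intro n
            cases n with
            | zero => exact hJU
            | succ m => exact Set.subset_iUnion (fun n => Iio (j n)) (n0 + m)
          · apply Set.iUnion_subset
            intro n
            refine Set.Subset.trans ?_ (Set.subset_iUnion K (n + 1))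
            rw [hKs]
            exact Iio_subset_Iio (hj.monotone (by omega))
        have hrel : ∀ n, RelS N 𝒟 (K n) (K (n + 1)) := by
          intro n
          cases n with
          | zero => exact ih n0 J hJ hJx
          | succ m =>
            rw [hKs (m + 1)]
            exact ih (n0 + (m + 1)) (K (m + 1)) (hKl (m + 1)) (by
              have := hKsub (m + 1)
              rw [hKs (m + 1)] at this
              exact this)
        have h := hRel2 Λ N hN 𝒟 h𝒟 K hKl hKm hrel
        rw [hK0, hKU] at h
        exact h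
  intro J J' hJ hJ' hJJ
  exact key J' hJ' J hJ hJJ

end Pool.Agent.Men.RR.H9
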