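import Pool.Agent.Helper22_Men.Stmts

/-! # Squad MEN, module REL2: limit step of the extension theorem -/

open MeasureTheory Set

namespace Pool.Agent.Men.RR.H9

section
variable {D : Type} [MeasurableSpace D] [Alph D] {I : Type} [LinearOrder I]

/-- Two restrictions. -/
theorem restr_restr_body {J U : Set I} (h : J ⊆ U) (g : Cond D I) :
    ((g.restr U).restr J).body = (g.restr J).body := by
  rw [Cond.restr_body, Cond.restr_body]
  ext y
  constructor
  · intro hy i hi
    have := hy i hi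
    rw [Cond.restr_T _ (h hi)] at this
    exact this
  · intro hy i hi
    rw [Cond.restr_T _ (h hi)]
    exact hy i hi

/-- Restriction of a glued condition. -/
theorem glue_restr_body {J U : Set I} (h : J ⊆ U) (r p : Cond D I) :
    ((Cond.glue r p U).restr J).body = (r.restr J).body := by
  rw [Cond.restr_body, Cond.restr_body]
  ext y
  constructor
  · intro hy i hi
    have := hy i hi
    rw [Cond.glue_T _ _ (h hi)] at this
    exact this
  · intro hy i hi
    rw [Cond.glue_T _ _ (h hi)]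
    exact hy i hi

end

/-- A function with countably many values composed with a function with measurable fibres. -/
theorem Meas.comp {α β γ : Type*} [MeasurableSpace α] [Countable β] {f : α → β} (hf : Meas f)
    (g : β → γ) : Meas (fun a => g (f a)) := by
  intro c
  have : {a | g (f a) = c} = ⋃ b : {b : β // g b = c}, {a | f a = b.1} := by
    ext a
    simp only [Set.mem_ofPred_eq, Set.mem_iUnion]
    constructor
    · intro h
      exact ⟨⟨f a, h⟩, rfl⟩
    · rintro ⟨b, hb⟩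
      rw [hb]
      exact b.2
  rw [this]
  exact MeasurableSet.iUnion (fun b => hf b.1)

theorem Meas.const {α β : Type*} [MeasurableSpace α] (b : β) : Meas (fun _ : α => b) := by
  intro c
  by_cases h : b = c
  · simp [h]
  · simp [h]

theorem Meas.pred {α β : Type*} [MeasurableSpace α] [Countable β] {f : α → β} (hf : Meas f)
    (V : β → Prop) : MeasurableSet {a | V (f a)} := by
  have h := (Meas.comp hf V) True
  have e : {a | V (f a)} = {a | V (f a) = True} := by
    ext a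
    simp
  rw [e]
  exact h

section
variable {Λ : Type} [LinearOrder Λ] [WellFoundedLT Λ] {N : Set (Cond ℕ Λ)}
  {𝒟 : Set (Set (Cond ℕ Λ))}

/-- The step of the construction: one task is performed. -/
theorem step (hN : Clo N) {J U : Set Λ} (hU : IsLowerSet U) (hJ : IsLowerSet J) (hJU : J ⊆ U)
    {p : Cond ℕ Λ} {G : Pt ℕ Λ → Set (Cond ℕ Λ)} (hG : Gen N 𝒟 J p G) {y : Pt ℕ Λ}
    (hy : y ∈ p.body) {r : Cond ℕ Λ} (hr : r ∈ N) (hrU : r.Below U) (hrG : r.restr J ∈ G y)
    {P : Cond ℕ Λ} (hP : P ∈ N) {E : Set (Cond ℕ Λ)} (hE : E ∈ 𝒟) (hrP : r ≤ P.restr U)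
    (hd : RDense N U E P) :
    ∃ g ∈ N, g ≤ P ∧ g ∈ E ∧ g.restr U ≤ r ∧ (g.restr U).restr J ∈ G y := by
  have hPN : Cond.glue r P U ∈ N := hN.glue r hr P hP U hU
  have h1 : (Cond.glue r P U).restr J ∈ G y := by
    refine hG.up y _ hrG _ (hN.restr _ hPN J hJ) (Cond.restr_below _ _) ?_
    rw [Cond.le_def, glue_restr_body hJU]
  have h2 : RDense N J E (Cond.glue r P U) := by
    intro h hhN hhJ hhP
    have hhr : h ≤ r.restr J := by
      rw [Cond.le_def] at hhP ⊢
      rwa [glue_restr_body hJU] at hhP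
    have h3 : Cond.glue h r J ∈ N := hN.glue h hhN r hr J hJ
    have h4 : (Cond.glue h r J).Below U := Cond.glue_below hJU hrU
    have h5 : Cond.glue h r J ≤ r := Cond.glue_le_right hhJ hhr
    have h5' : Cond.glue h r J ≤ P.restr U := le_trans h5 hrP
    obtain ⟨g, hg, hgle, hgE⟩ := hd _ h3 h4 h5'
    have h6 : g ≤ Cond.glue h r J := le_trans hgle (Cond.glue_le_left h4)
    have h7 : g ≤ P := le_trans hgle (Cond.glue_le_right h4 h5')
    refine ⟨g, hg, ?_, hgE⟩
    exact Cond.le_glue (le_trans h6 (Cond.glue_le_left hhJ)) (Cond.le_glue (le_trans h6 h5) h7)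
  obtain ⟨g, hg, hgP, hgE, hgG⟩ := hG.gen _ hPN y hy h1 E hE h2
  refine ⟨g, hg, le_trans hgP (Cond.glue_le_right hrU hrP), hgE, ?_, ?_⟩
  · have h3 : g ≤ r := le_trans hgP (Cond.glue_le_left hrU)
    exact le_trans (Cond.restr_mono hU h3) hrU.restr_le
  · refine hG.up y _ hgG _ (hN.restr _ (hN.restr _ hg U hU) J hJ) (Cond.restr_below _ _) ?_
    rw [Cond.le_def, restr_restr_body hJU]

end

theorem rel2 (_hMcs : McsStmt) (hSeq : SeqStmt) (hLt : LtStmt) : RelLimStmt := by
  intro Λ _ _ _ N hN 𝒟 h𝒟 J hJ hJm hrel p G hG r hrm hrd hrG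
  classical
  set U : Set Λ := ⋃ n, J n with hU
  have hUl : IsLowerSet U := isLowerSet_iUnion hJ
  have hJU : ∀ n, J n ⊆ U := fun n => Set.subset_iUnion J n
  have : Countable ↥N := hN.count.to_subtype
  -- tasks
  let 𝒟' : Set (Set (Cond ℕ Λ)) := insert Set.univ 𝒟
  have : Countable ↥𝒟' := (h𝒟.insert _).to_subtype
  have : Nonempty (↥N × ↥𝒟') := ⟨(⟨_, hN.one⟩, ⟨Set.univ, Set.mem_insert _ _⟩)⟩
  obtain ⟨e, he⟩ := hSeq (↥N × ↥𝒟')
  -- states
  let Q : Type := {q : Cond ℕ Λ // q ∈ N ∧ q.Below U}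
  have : Countable Q := by
    have : Function.Injective (fun q : Q => (⟨q.1, q.2.1⟩ : ↥N)) := by
      intro a b h
      exact Subtype.ext (congrArg (fun z : ↥N => z.1) h)
    exact this.countable
  let Rel : ℕ → Q → Q → Prop := fun n S S' =>
    (e n).2.1 ∈ 𝒟 → S.1 ≤ (e n).1.1.restr U → RDense N U (e n).2.1 (e n).1.1 →
      ∃ g ∈ N, g ≤ (e n).1.1 ∧ g ∈ (e n).2.1 ∧ S'.1 ≤ g.restr U
  let φ : ↥N → Q := fun s => ⟨s.1.restr U, hN.restr _ s.2 U hUl, Cond.restr_below _ _⟩
  obtain ⟨p', St, hb, hT, hS0, hSm, hSd, hSt⟩ := hLt Λ Q N 𝒟 hN J hJ hJm hrel (fun q => q.1)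
    (fun _ => Set.univ) Rel (fun n S _ => S.2.1) (by
      intro n p1 G1 hG1 y hy S _ hSG
      by_cases hact : (e n).2.1 ∈ 𝒟 ∧ S.1 ≤ (e n).1.1.restr U ∧ RDense N U (e n).2.1 (e n).1.1
      · obtain ⟨g, hg, hgP, hgE, hgr, hgG⟩ := step hN hUl (hJ n) (hJU n) hG1 hy S.2.1 S.2.2 hSG
          (e n).1.2 hact.1 hact.2.1 hact.2.2
        exact ⟨⟨g.restr U, hN.restr _ hg U hUl, Cond.restr_below _ _⟩, trivial,
          fun _ _ _ => ⟨g, hg, hgP, hgE, le_rfl⟩, hgr, hgG⟩
      · exact ⟨S, trivial, fun h1 h2 h3 => absurd ⟨h1, h2, h3⟩ hact, le_rfl, hSG⟩)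
    p G hG (fun y => φ (r y)) (Meas.comp hrm φ) (by
      intro y y' h
      show φ (r y) = φ (r y')
      rw [hrd y y' h])
    (by
      intro y hy
      refine ⟨trivial, ?_⟩
      refine hG.up y _ (hrG y hy) _ (hN.restr _ (hN.restr _ (r y).2 U hUl) _ (hJ 0))
        (Cond.restr_below _ _) ?_
      rw [Cond.le_def, restr_restr_body (hJU 0)])
  have hanti : ∀ y ∈ p'.body, ∀ m n, n ≤ m → (St m y).1 ≤ (St n y).1 := by
    intro y hy m n hnm
    induction m, hnm using Nat.le_induction with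
    | base => exact le_rfl
    | succ m _ ih => exact le_trans (hSt y hy m).2.2.1 ih
  refine ⟨p', fun y => {s | s ∈ N ∧ s.Below U ∧ ∃ n, (St n y).1 ≤ s}, ?_, hT, ?_⟩
  · refine ⟨hb, ?_, ?_, ?_, ?_, ?_, ?_⟩
    · intro y s hs
      exact ⟨hs.1, hs.2.1⟩
    · rintro y s ⟨_, _, n, hn⟩ t htN htU hst
      exact ⟨htN, htU, n, le_trans hn hst⟩
    · intro y y' h
      have h1 : ∀ n, St n y = St n y' := fun n => hSd n y y' (fun i hi => h i (hJU n hi))
      ext s
      simp only [Set.mem_ofPred_eq]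
      constructor
      · rintro ⟨h2, h3, n, hn⟩
        exact ⟨h2, h3, n, by rw [← h1 n]; exact hn⟩
      · rintro ⟨h2, h3, n, hn⟩
        exact ⟨h2, h3, n, by rw [h1 n]; exact hn⟩
    · intro s
      by_cases hs : s ∈ N ∧ s.Below U
      · have : {y | s ∈ {s | s ∈ N ∧ s.Below U ∧ ∃ n, (St n y).1 ≤ s}}
            = ⋃ n, {y | (St n y).1 ≤ s} := by
          ext y
          simp only [Set.mem_ofPred_eq, Set.mem_iUnion]
          exact ⟨fun h => h.2.2, fun h => ⟨hs.1, hs.2, h⟩⟩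
        rw [this]
        exact MeasurableSet.iUnion (fun n => Meas.pred (hSm n) (fun q : Q => q.1 ≤ s))
      · have : {y | s ∈ {s | s ∈ N ∧ s.Below U ∧ ∃ n, (St n y).1 ≤ s}} = ∅ := by
          ext y
          simp only [Set.mem_ofPred_eq, Set.mem_empty_iff_false, iff_false]
          exact fun h => hs ⟨h.1, h.2.1⟩
        rw [this]
        exact MeasurableSet.empty
    · rintro y hy s ⟨_, _, n, hn⟩
      apply hn
      rw [(St n y).2.2.body_eq]
      exact (hSt y hy n).2.2.2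
    · rintro P hP y hy ⟨_, _, n, hn⟩ E hE hd
      obtain ⟨m, hnm, hm⟩ := he (⟨P, hP⟩, ⟨E, Set.mem_insert_of_mem _ hE⟩) n
      have h1 := (hSt y hy m).2.1
      simp only [Rel] at h1
      rw [hm] at h1
      obtain ⟨g, hg, hgP, hgE, hSg⟩ := h1 hE (le_trans (hanti y hy m n hnm) hn) hd
      exact ⟨g, hg, hgP, hgE, hN.restr _ hg U hUl, Cond.restr_below _ _, m + 1, hSg⟩
  · intro y hy
    refine ⟨hN.restr _ (r y).2 U hUl, Cond.restr_below _ _, 0, ?_⟩
    rw [hS0]

end Pool.Agent.Men.RR.H9
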